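import Mathlib

open Set Metric Topology
open scoped ComplexConjugate

namespace Pool.Agent.K7.H75.OC

/-- real inner product of two complex numbers -/
def dt (u v : ℂ) : ℝ := u.re * v.re + u.im * v.im

lemma normsq_eq (z : ℂ) : ‖z‖ ^ 2 = z.re ^ 2 + z.im ^ 2 := by
  rw [← Complex.normSq_eq_norm_sq, Complex.normSq_apply]; ring

lemma dt_self (z : ℂ) : dt z z = ‖z‖ ^ 2 := by rw [normsq_eq]; unfold dt; ring

/-- `|z - c|² - |a|²` for the circle through `x` with centre `x - a` -/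
noncomputable def gf (x a z : ℂ) : ℝ := ‖z - (x - a)‖ ^ 2 - ‖a‖ ^ 2

lemma gf_continuous (x a : ℂ) : Continuous (gf x a) := by unfold gf; fun_prop

/-- the centre of the cap -/
noncomputable def kc (x ζ : ℂ) (ρ : ℝ) : ℂ := x - ((ρ ^ 2 / (1 - ρ ^ 2 * ‖ζ‖ ^ 2) : ℝ) : ℂ) * conj ζ
/-- the radius of the cap -/
noncomputable def kr (ζ : ℂ) (ρ : ℝ) : ℝ := ρ / (1 - ρ ^ 2 * ‖ζ‖ ^ 2)

noncomputable def psi (x ζ w : ℂ) : ℂ := x + w / (1 + ζ * w)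
noncomputable def phi (x ζ z : ℂ) : ℂ := (z - x) / (1 - ζ * (z - x))

section
variable {x ζ : ℂ} {ρ : ℝ}

lemma D_pos (hρ : 0 < ρ) (hζ : ρ * ‖ζ‖ < 1) : 0 < 1 - ρ ^ 2 * ‖ζ‖ ^ 2 := by
  have h0 : 0 ≤ ρ * ‖ζ‖ := by positivity
  nlinarith

lemma kr_pos (hρ : 0 < ρ) (hζ : ρ * ‖ζ‖ < 1) : 0 < kr ζ ρ := div_pos hρ (D_pos hρ hζ)

lemma den_ne {w : ℂ} (hρ : 0 < ρ) (hζ : ρ * ‖ζ‖ < 1) (hw : ‖w‖ ≤ ρ) : 1 + ζ * w ≠ 0 := by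
  intro h
  have h1 : ζ * w = -1 := by linear_combination h
  have h2 : ‖ζ‖ * ‖w‖ = 1 := by rw [← norm_mul, h1]; simp
  nlinarith [norm_nonneg ζ, norm_nonneg w]

lemma phi_psi {w : ℂ} (h : 1 + ζ * w ≠ 0) : phi x ζ (psi x ζ w) = w := by
  unfold phi psi
  have h1 : 1 - ζ * (x + w / (1 + ζ * w) - x) = 1 / (1 + ζ * w) := by field_simp; ring
  rw [h1, add_sub_cancel_left, div_div_div_cancel_right₀ h, div_one]

lemma psi_phi {z : ℂ} (h : 1 - ζ * (z - x) ≠ 0) : psi x ζ (phi x ζ z) = z := by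
  unfold phi psi
  have h1 : 1 + ζ * ((z - x) / (1 - ζ * (z - x))) = 1 / (1 - ζ * (z - x)) := by field_simp; ring
  rw [h1, div_div_div_cancel_right₀ h, div_one]
  ring

/-- the key identity for the cap -/
lemma cap_id (hD : 1 - ρ ^ 2 * ‖ζ‖ ^ 2 ≠ 0) (z : ℂ) :
    (1 - ρ ^ 2 * ‖ζ‖ ^ 2) * (dist z (kc x ζ ρ) ^ 2 - kr ζ ρ ^ 2) =
      ‖z - x‖ ^ 2 - ρ ^ 2 * ‖1 - ζ * (z - x)‖ ^ 2 := by
  rw [dist_eq_norm]
  unfold kc kr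
  obtain ⟨D, hDdef⟩ : ∃ D, D = 1 - ρ ^ 2 * ‖ζ‖ ^ 2 := ⟨_, rfl⟩
  rw [← hDdef] at hD ⊢
  obtain ⟨t, rfl⟩ : ∃ t, z = x + t := ⟨z - x, by ring⟩
  have e1 : x + t - (x - ((ρ ^ 2 / D : ℝ) : ℂ) * conj ζ) = t + ((ρ ^ 2 / D : ℝ) : ℂ) * conj ζ := by ring
  have e2 : x + t - x = t := by ring
  rw [e1, e2, normsq_eq, normsq_eq, normsq_eq]
  have hz : ‖ζ‖ ^ 2 = ζ.re ^ 2 + ζ.im ^ 2 := normsq_eq ζ
  rw [hz] at hDdef
  simp only [Complex.add_re, Complex.add_im, Complex.mul_re, Complex.mul_im, Complex.ofReal_re,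
    Complex.ofReal_im, Complex.conj_re, Complex.conj_im, Complex.sub_re, Complex.sub_im,
    Complex.one_re, Complex.one_im]
  have hρD : ρ ^ 2 * (ζ.re ^ 2 + ζ.im ^ 2) = 1 - D := by rw [hDdef]; ring
  field_simp
  linear_combination (ρ ^ 2 + D * (t.re ^ 2 + t.im ^ 2)) * hρD

lemma psi_dist (hD : 1 - ρ ^ 2 * ‖ζ‖ ^ 2 ≠ 0) {w : ℂ} (h : 1 + ζ * w ≠ 0) :
    ‖1 + ζ * w‖ ^ 2 * ((1 - ρ ^ 2 * ‖ζ‖ ^ 2) * (dist (psi x ζ w) (kc x ζ ρ) ^ 2 - kr ζ ρ ^ 2)) =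
      ‖w‖ ^ 2 - ρ ^ 2 := by
  rw [cap_id hD]
  have e1 : psi x ζ w - x = w / (1 + ζ * w) := by unfold psi; ring
  have e2 : 1 - ζ * (psi x ζ w - x) = 1 / (1 + ζ * w) := by rw [e1]; field_simp; ring
  rw [e2, e1, norm_div, norm_div, norm_one]
  have : ‖1 + ζ * w‖ ≠ 0 := norm_ne_zero_iff.2 h
  field_simp

lemma psi_gf {a : ℂ} (ha : (a * ζ).re = -1 / 2) {w : ℂ} (h : 1 + ζ * w ≠ 0) :
    ‖1 + ζ * w‖ ^ 2 * gf x a (psi x ζ w) = 2 * dt a w := by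
  have e1 : psi x ζ w - (x - a) = (w + a * (1 + ζ * w)) / (1 + ζ * w) := by
    rw [eq_div_iff h]
    have e0 : w / (1 + ζ * w) * (1 + ζ * w) = w := div_mul_cancel₀ w h
    unfold psi
    linear_combination e0
  unfold gf
  rw [e1, norm_div]
  have h0 : ‖1 + ζ * w‖ ≠ 0 := norm_ne_zero_iff.2 h
  have e3 : ‖1 + ζ * w‖ ^ 2 * ((‖w + a * (1 + ζ * w)‖ / ‖1 + ζ * w‖) ^ 2 - ‖a‖ ^ 2) =
      ‖w + a * (1 + ζ * w)‖ ^ 2 - ‖a‖ ^ 2 * ‖1 + ζ * w‖ ^ 2 := by field_simp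
  rw [e3, normsq_eq, normsq_eq, normsq_eq]
  unfold dt
  simp only [Complex.add_re, Complex.add_im, Complex.mul_re, Complex.mul_im, Complex.one_re,
    Complex.one_im] at ha ⊢
  linear_combination (2 * (w.re ^ 2 + w.im ^ 2)) * ha

lemma mem_disk_den (hρ : 0 < ρ) (hζ : ρ * ‖ζ‖ < 1) {z : ℂ} (hz : dist z (kc x ζ ρ) ≤ kr ζ ρ) :
    1 - ζ * (z - x) ≠ 0 := by
  intro h
  have hD := D_pos hρ hζ
  have h1 := cap_id (x := x) hD.ne' z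
  rw [h, norm_zero] at h1
  have h2 : dist z (kc x ζ ρ) ^ 2 ≤ kr ζ ρ ^ 2 := pow_le_pow_left₀ dist_nonneg hz 2
  have h3 : ‖z - x‖ ^ 2 ≤ 0 := by nlinarith
  have h4 : ‖z - x‖ = 0 := by nlinarith [norm_nonneg (z - x)]
  rw [norm_eq_zero.1 h4] at h
  simp at h

/-- the disc of the cap is the image of the disc `‖w‖ ≤ ρ` -/
lemma exists_w (hρ : 0 < ρ) (hζ : ρ * ‖ζ‖ < 1) {z : ℂ} (hz : dist z (kc x ζ ρ) ≤ kr ζ ρ) :
    ∃ w, ‖w‖ ≤ ρ ∧ psi x ζ w = z := by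
  have hD := D_pos hρ hζ
  have h0 := mem_disk_den hρ hζ hz
  refine ⟨phi x ζ z, ?_, psi_phi h0⟩
  have h1 := cap_id (x := x) hD.ne' z
  have h2 : dist z (kc x ζ ρ) ^ 2 ≤ kr ζ ρ ^ 2 := pow_le_pow_left₀ dist_nonneg hz 2
  have h3 : ‖z - x‖ ^ 2 ≤ ρ ^ 2 * ‖1 - ζ * (z - x)‖ ^ 2 := by nlinarith
  have h4 : ‖z - x‖ ≤ ρ * ‖1 - ζ * (z - x)‖ := by
    rw [← mul_pow] at h3
    exact (pow_le_pow_iff_left₀ (norm_nonneg _) (by positivity) two_ne_zero).1 h3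
  unfold phi
  rw [norm_div, div_le_iff₀ (norm_pos_iff.2 h0)]
  exact h4

lemma disk_iff (hρ : 0 < ρ) (hζ : ρ * ‖ζ‖ < 1) {w : ℂ} (hw : ‖w‖ ≤ ρ) :
    dist (psi x ζ w) (kc x ζ ρ) ≤ kr ζ ρ ∧
      (dist (psi x ζ w) (kc x ζ ρ) < kr ζ ρ ↔ ‖w‖ < ρ) := by
  have hD := D_pos hρ hζ
  have hden := den_ne hρ hζ hw
  have h1 := psi_dist (x := x) hD.ne' hden
  have hE : 0 < ‖1 + ζ * w‖ ^ 2 := by positivity
  have hk := kr_pos hρ hζ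
  have hDE := mul_pos hE hD
  have hdn : 0 ≤ dist (psi x ζ w) (kc x ζ ρ) := dist_nonneg
  have h2 : ‖w‖ ^ 2 ≤ ρ ^ 2 := pow_le_pow_left₀ (norm_nonneg _) hw 2
  rw [← mul_assoc] at h1
  constructor
  · have : dist (psi x ζ w) (kc x ζ ρ) ^ 2 ≤ kr ζ ρ ^ 2 := by
      by_contra hc
      push Not at hc
      nlinarith [mul_pos hDE (sub_pos.2 hc)]
    exact (pow_le_pow_iff_left₀ hdn hk.le two_ne_zero).1 this
  · constructor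
    · intro h
      have h3 : dist (psi x ζ w) (kc x ζ ρ) ^ 2 < kr ζ ρ ^ 2 := pow_lt_pow_left₀ h hdn (by norm_num)
      have h4 : ‖w‖ ^ 2 < ρ ^ 2 := by nlinarith [mul_pos hDE (sub_pos.2 h3)]
      exact lt_of_pow_lt_pow_left₀ 2 hρ.le h4
    · intro h
      have h3 : ‖w‖ ^ 2 < ρ ^ 2 := pow_lt_pow_left₀ h (norm_nonneg _) (by norm_num)
      have h4 : dist (psi x ζ w) (kc x ζ ρ) ^ 2 < kr ζ ρ ^ 2 := by
        by_contra hc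
        push Not at hc
        nlinarith [mul_nonneg hDE.le (sub_nonneg.2 hc)]
      exact lt_of_pow_lt_pow_left₀ 2 hk.le h4

lemma gf_sign (hρ : 0 < ρ) (hζ : ρ * ‖ζ‖ < 1) {a : ℂ} (ha : (a * ζ).re = -1 / 2) (s : ℝ) {w : ℂ}
    (hw : ‖w‖ ≤ ρ) :
    (0 < s * gf x a (psi x ζ w) ↔ 0 < s * dt a w) ∧
      (0 ≤ s * gf x a (psi x ζ w) ↔ 0 ≤ s * dt a w) ∧ (gf x a (psi x ζ w) = 0 ↔ dt a w = 0) := by
  have hden := den_ne hρ hζ hw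
  have h1 := psi_gf (x := x) ha hden
  have hE : 0 < ‖1 + ζ * w‖ ^ 2 := by positivity
  have h2 : gf x a (psi x ζ w) = (2 / ‖1 + ζ * w‖ ^ 2) * dt a w := by
    field_simp; linarith
  have hc : 0 < 2 / ‖1 + ζ * w‖ ^ 2 := by positivity
  set c := 2 / ‖1 + ζ * w‖ ^ 2
  have h3 : s * gf x a (psi x ζ w) = c * (s * dt a w) := by rw [h2]; ring
  refine ⟨?_, ?_, ?_⟩
  · rw [h3]; exact ⟨fun h => (pos_iff_pos_of_mul_pos h).1 hc, fun h => mul_pos hc h⟩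
  · rw [h3]; exact ⟨fun h => nonneg_of_mul_nonneg_right h hc, fun h => mul_nonneg hc.le h⟩
  · rw [h2]; exact ⟨fun h => (mul_eq_zero.1 h).resolve_left hc.ne', fun h => by rw [h, mul_zero]⟩

end

end Pool.Agent.K7.H75.OC
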