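import Pool.Agent.K7.H75.OC.Local

open Set Metric Topology
open scoped ComplexConjugate

namespace Pool.Agent.K7.H75.OC

/-- the configuration at one quadrant of a cap -/
structure Quad (x ζ a b e f : ℂ) (ρ s t : ℝ) : Prop where
  hρ : 0 < ρ
  hζ : ρ * ‖ζ‖ < 1
  ha : (a * ζ).re = -1 / 2
  hb : (b * ζ).re = -1 / 2
  he : dt e e = 1
  hf : dt f f = 1
  hef : dt e f = 0
  hs : ∃ α : ℝ, 0 < α ∧ ∀ w, s * dt a w = α * dt e w
  ht : ∃ β : ℝ, 0 < β ∧ ∀ w, t * dt b w = β * dt f w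
  hs0 : s ≠ 0
  ht0 : t ≠ 0

/-- the point `c e + d f` -/
noncomputable def cmb (e f : ℂ) (c d : ℝ) : ℂ := (c : ℂ) * e + (d : ℂ) * f

lemma cmb_re (e f : ℂ) (c d : ℝ) : (cmb e f c d).re = c * e.re + d * f.re := by simp [cmb]
lemma cmb_im (e f : ℂ) (c d : ℝ) : (cmb e f c d).im = c * e.im + d * f.im := by simp [cmb]

noncomputable def G (x ζ e f : ℂ) (p : ℝ × ℝ) : ℂ :=
  psi x ζ (cmb e f (p.1 * Real.cos p.2) (p.1 * Real.sin p.2))

section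
variable {x ζ a b e f : ℂ} {ρ s t : ℝ}

lemma cmb_norm (he : dt e e = 1) (hf : dt f f = 1) (hef : dt e f = 0) (c d : ℝ) :
    ‖cmb e f c d‖ ^ 2 = c ^ 2 + d ^ 2 := by
  rw [normsq_eq, cmb_re, cmb_im]
  unfold dt at he hf hef
  linear_combination c ^ 2 * he + d ^ 2 * hf + 2 * c * d * hef

lemma dt_cmb_e (he : dt e e = 1) (hef : dt e f = 0) (c d : ℝ) : dt e (cmb e f c d) = c := by
  unfold dt at *
  rw [cmb_re, cmb_im]
  linear_combination c * he + d * hef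

lemma dt_cmb_f (hf : dt f f = 1) (hef : dt e f = 0) (c d : ℝ) : dt f (cmb e f c d) = d := by
  unfold dt at *
  rw [cmb_re, cmb_im]
  linear_combination d * hf + c * hef

lemma cmb_dt (he : dt e e = 1) (hf : dt f f = 1) (hef : dt e f = 0) (w : ℂ) :
    cmb e f (dt e w) (dt f w) = w := by
  unfold dt at he hf hef
  have h1 : e.re ^ 2 + f.re ^ 2 = 1 := by
    have : (e.re * f.re) ^ 2 = (e.im * f.im) ^ 2 := by
      have : e.re * f.re = -(e.im * f.im) := by linarith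
      rw [this]; ring
    have h2 : e.im ^ 2 = 1 - e.re ^ 2 := by linarith [he]
    have h3 : f.im ^ 2 = 1 - f.re ^ 2 := by linarith [hf]
    rw [mul_pow, mul_pow, h2, h3] at this
    linarith
  have h2 : e.im ^ 2 + f.im ^ 2 = 1 := by nlinarith
  have h3 : e.re * e.im + f.re * f.im = 0 := by
    have h4 : (e.re * e.im + f.re * f.im) ^ 2 = 0 := by
      have h5 : f.re ^ 2 = e.im ^ 2 := by linarith
      have h6 : f.im ^ 2 = e.re ^ 2 := by linarith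
      have h7 : e.re * f.re = -(e.im * f.im) := by linarith
      have h8 : (e.re * e.im + f.re * f.im) ^ 2 =
        e.re ^ 2 * e.im ^ 2 + f.re ^ 2 * f.im ^ 2 + 2 * (e.re * f.re) * (e.im * f.im) := by ring
      rw [h8, h7, h5, h6]
      have h9 : e.im ^ 2 * f.im ^ 2 = e.im ^ 2 * e.re ^ 2 := by rw [h6]
      linear_combination (-2) * h9
    exact pow_eq_zero_iff two_ne_zero |>.1 h4
  apply Complex.ext
  · rw [cmb_re]; unfold dt; linear_combination w.re * h1 + w.im * h3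
  · rw [cmb_im]; unfold dt; linear_combination w.im * h2 + w.re * h3

lemma polar_norm (he : dt e e = 1) (hf : dt f f = 1) (hef : dt e f = 0) {r θ : ℝ} (hr : 0 ≤ r) :
    ‖cmb e f (r * Real.cos θ) (r * Real.sin θ)‖ = r := by
  have h1 := cmb_norm he hf hef (r * Real.cos θ) (r * Real.sin θ)
  have h2 : (r * Real.cos θ) ^ 2 + (r * Real.sin θ) ^ 2 = r ^ 2 := by
    linear_combination r ^ 2 * Real.sin_sq_add_cos_sq θ
  rw [h2] at h1
  exact (pow_left_inj₀ (norm_nonneg _) hr two_ne_zero).1 h1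

lemma Quad.param (Q : Quad x ζ a b e f ρ s t) {r θ : ℝ} (hr : 0 ≤ r) (hr' : r ≤ ρ) :
    dist (G x ζ e f (r, θ)) (kc x ζ ρ) ≤ kr ζ ρ ∧
    (dist (G x ζ e f (r, θ)) (kc x ζ ρ) < kr ζ ρ ↔ r < ρ) ∧
    (0 < s * gf x a (G x ζ e f (r, θ)) ↔ 0 < r * Real.cos θ) ∧
    (0 ≤ s * gf x a (G x ζ e f (r, θ)) ↔ 0 ≤ r * Real.cos θ) ∧
    (gf x a (G x ζ e f (r, θ)) = 0 ↔ r * Real.cos θ = 0) ∧
    (0 < t * gf x b (G x ζ e f (r, θ)) ↔ 0 < r * Real.sin θ) ∧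
    (0 ≤ t * gf x b (G x ζ e f (r, θ)) ↔ 0 ≤ r * Real.sin θ) ∧
    (gf x b (G x ζ e f (r, θ)) = 0 ↔ r * Real.sin θ = 0) := by
  have hn := polar_norm Q.he Q.hf Q.hef (θ := θ) hr
  obtain ⟨α, hα, h1⟩ := Q.hs
  obtain ⟨β, hβ, h2⟩ := Q.ht
  unfold G
  simp only
  set w := cmb e f (r * Real.cos θ) (r * Real.sin θ) with hw
  have hwρ : ‖w‖ ≤ ρ := by rw [hn]; exact hr'
  have h3 := disk_iff (x := x) Q.hρ Q.hζ hwρ
  rw [hn] at h3
  have h4 := gf_sign (x := x) Q.hρ Q.hζ Q.ha s hwρ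
  have h5 := gf_sign (x := x) Q.hρ Q.hζ Q.hb t hwρ
  have e1 : s * dt a w = α * (r * Real.cos θ) := by rw [h1, hw, dt_cmb_e Q.he Q.hef]
  have e2 : t * dt b w = β * (r * Real.sin θ) := by rw [h2, hw, dt_cmb_f Q.hf Q.hef]
  have e3 : dt a w = 0 ↔ r * Real.cos θ = 0 := by
    constructor
    · intro h; rw [h, mul_zero] at e1; exact (mul_eq_zero.1 e1.symm).resolve_left hα.ne'
    · intro h; rw [h, mul_zero] at e1; exact (mul_eq_zero.1 e1).resolve_left Q.hs0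
  have e4 : dt b w = 0 ↔ r * Real.sin θ = 0 := by
    constructor
    · intro h; rw [h, mul_zero] at e2; exact (mul_eq_zero.1 e2.symm).resolve_left hβ.ne'
    · intro h; rw [h, mul_zero] at e2; exact (mul_eq_zero.1 e2).resolve_left Q.ht0
  refine ⟨h3.1, h3.2, ?_, ?_, ?_, ?_, ?_, ?_⟩
  · rw [h4.1, e1]; exact mul_pos_iff_of_pos_left hα
  · rw [h4.2.1, e1]; exact mul_nonneg_iff_of_pos_left hα
  · rw [h4.2.2, e3]
  · rw [h5.1, e2]; exact mul_pos_iff_of_pos_left hβ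
  · rw [h5.2.1, e2]; exact mul_nonneg_iff_of_pos_left hβ
  · rw [h5.2.2, e4]

lemma Quad.surj (Q : Quad x ζ a b e f ρ s t) {z : ℂ} (hz : dist z (kc x ζ ρ) ≤ kr ζ ρ)
    (hza : 0 ≤ s * gf x a z) (hzb : 0 ≤ t * gf x b z) :
    ∃ r θ : ℝ, 0 ≤ r ∧ r ≤ ρ ∧ 0 ≤ θ ∧ θ ≤ Real.pi / 2 ∧ z = G x ζ e f (r, θ) := by
  obtain ⟨w, hw, rfl⟩ := exists_w Q.hρ Q.hζ hz
  obtain ⟨α, hα, h1⟩ := Q.hs
  obtain ⟨β, hβ, h2⟩ := Q.ht
  rw [(gf_sign Q.hρ Q.hζ Q.ha s hw).2.1, h1] at hza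
  rw [(gf_sign Q.hρ Q.hζ Q.hb t hw).2.1, h2] at hzb
  have hc : 0 ≤ dt e w := nonneg_of_mul_nonneg_right hza hα
  have hd : 0 ≤ dt f w := nonneg_of_mul_nonneg_right hzb hβ
  set v : ℂ := ⟨dt e w, dt f w⟩ with hv
  have hvn : ‖v‖ = ‖w‖ := by
    have h3 := cmb_norm Q.he Q.hf Q.hef (dt e w) (dt f w)
    rw [cmb_dt Q.he Q.hf Q.hef] at h3
    have h4 := normsq_eq v
    rw [← pow_left_inj₀ (norm_nonneg _) (norm_nonneg _) two_ne_zero, h3, h4]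
  refine ⟨‖v‖, v.arg, norm_nonneg _, by rw [hvn]; exact hw, Complex.arg_nonneg_iff.2 hd, ?_, ?_⟩
  · have h3 := Complex.abs_arg_le_pi_div_two_iff.2 (show 0 ≤ v.re from hc)
    exact (abs_le.1 h3).2
  · unfold G
    simp only
    rw [Complex.norm_mul_cos_arg, Complex.norm_mul_sin_arg]
    have : cmb e f v.re v.im = w := cmb_dt Q.he Q.hf Q.hef w
    rw [this]

lemma G_cont (he : dt e e = 1) (hf : dt f f = 1) (hef : dt e f = 0) (hρ : 0 < ρ)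
    (hζ : ρ * ‖ζ‖ < 1) : ContinuousOn (G x ζ e f) (Icc 0 ρ ×ˢ univ) := by
  unfold G psi cmb
  refine ContinuousOn.add continuousOn_const (ContinuousOn.div (by fun_prop) (by fun_prop) ?_)
  rintro ⟨r, θ⟩ ⟨⟨hr, hr'⟩, -⟩
  exact den_ne hρ hζ (by
    have := polar_norm he hf hef (θ := θ) hr
    unfold cmb at this
    simp only at this ⊢
    rw [this]; exact hr')

end

end Pool.Agent.K7.H75.OC
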