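import Pool.Agent.K7.H75.OC.Polar

open Set Metric Topology
open scoped ComplexConjugate

namespace Pool.Agent.K7.H75.OC

section
variable {x ζ a b e f : ℂ} {ρ s t : ℝ}

variable (x ζ a b ρ s t) in
def FF : Set ℂ := {z | dist z (kc x ζ ρ) < kr ζ ρ ∧ 0 < s * gf x a z ∧ 0 < t * gf x b z}
variable (x ζ a b ρ s t) in
def FFc : Set ℂ := {z | dist z (kc x ζ ρ) ≤ kr ζ ρ ∧ 0 ≤ s * gf x a z ∧ 0 ≤ t * gf x b z}
variable (x ζ a b ρ s) in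
def EB : Set ℂ := {z | dist z (kc x ζ ρ) < kr ζ ρ ∧ 0 < s * gf x a z ∧ gf x b z = 0}
variable (x ζ a b ρ s) in
def EBc : Set ℂ := {z | dist z (kc x ζ ρ) ≤ kr ζ ρ ∧ 0 ≤ s * gf x a z ∧ gf x b z = 0}
variable (x ζ a b ρ t) in
def EA : Set ℂ := {z | dist z (kc x ζ ρ) < kr ζ ρ ∧ gf x a z = 0 ∧ 0 < t * gf x b z}
variable (x ζ a b ρ t) in
def EAc : Set ℂ := {z | dist z (kc x ζ ρ) ≤ kr ζ ρ ∧ gf x a z = 0 ∧ 0 ≤ t * gf x b z}
variable (x ζ a b ρ s t) in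
def EK : Set ℂ := {z | dist z (kc x ζ ρ) = kr ζ ρ ∧ 0 < s * gf x a z ∧ 0 < t * gf x b z}
variable (x ζ a b ρ s t) in
def EKc : Set ℂ := {z | dist z (kc x ζ ρ) = kr ζ ρ ∧ 0 ≤ s * gf x a z ∧ 0 ≤ t * gf x b z}

lemma cont_d (x ζ : ℂ) (ρ : ℝ) : Continuous fun z => dist z (kc x ζ ρ) := by fun_prop
lemma cont_s (s : ℝ) (x a : ℂ) : Continuous fun z => s * gf x a z := (gf_continuous x a).const_mul s

lemma FF_open : IsOpen (FF x ζ a b ρ s t) :=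
  (isOpen_lt (cont_d x ζ ρ) continuous_const).inter
    ((isOpen_lt continuous_const (cont_s s x a)).inter (isOpen_lt continuous_const (cont_s t x b)))

lemma FFc_closed : IsClosed (FFc x ζ a b ρ s t) :=
  (isClosed_le (cont_d x ζ ρ) continuous_const).inter
    ((isClosed_le continuous_const (cont_s s x a)).inter (isClosed_le continuous_const (cont_s t x b)))

lemma EBc_closed : IsClosed (EBc x ζ a b ρ s) :=
  (isClosed_le (cont_d x ζ ρ) continuous_const).inter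
    ((isClosed_le continuous_const (cont_s s x a)).inter (isClosed_eq (gf_continuous x b) continuous_const))

lemma EAc_closed : IsClosed (EAc x ζ a b ρ t) :=
  (isClosed_le (cont_d x ζ ρ) continuous_const).inter
    ((isClosed_eq (gf_continuous x a) continuous_const).inter (isClosed_le continuous_const (cont_s t x b)))

lemma EKc_closed : IsClosed (EKc x ζ a b ρ s t) :=
  (isClosed_eq (cont_d x ζ ρ) continuous_const).inter
    ((isClosed_le continuous_const (cont_s s x a)).inter (isClosed_le continuous_const (cont_s t x b)))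

lemma Quad.pre (Q : Quad x ζ a b e f ρ s t) {I J : Set ℝ} (hI : IsPreconnected I)
    (hJ : IsPreconnected J) (h : I ⊆ Icc 0 ρ) : IsPreconnected (G x ζ e f '' (I ×ˢ J)) :=
  (hI.prod hJ).image _ ((G_cont Q.he Q.hf Q.hef Q.hρ Q.hζ).mono (prod_mono h (subset_univ _)))

lemma Quad.cl (Q : Quad x ζ a b e f ρ s t) {I J : Set ℝ} (h : closure I ⊆ Icc 0 ρ) :
    G x ζ e f '' (closure I ×ˢ closure J) ⊆ closure (G x ζ e f '' (I ×ˢ J)) := by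
  rw [← closure_prod_eq]
  refine ContinuousOn.image_closure ?_
  rw [closure_prod_eq]
  exact (G_cont Q.he Q.hf Q.hef Q.hρ Q.hζ).mono (prod_mono h (subset_univ _))

lemma sin_zero_of {θ : ℝ} (h0 : 0 ≤ θ) (h1 : θ ≤ Real.pi / 2) (h : Real.sin θ = 0) : θ = 0 := by
  by_contra hc
  have : 0 < Real.sin θ := Real.sin_pos_of_pos_of_lt_pi (lt_of_le_of_ne h0 (Ne.symm hc))
    (by linarith [Real.pi_pos])
  linarith

lemma cos_zero_of {θ : ℝ} (h0 : 0 ≤ θ) (h1 : θ ≤ Real.pi / 2) (h : Real.cos θ = 0) :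
    θ = Real.pi / 2 := by
  by_contra hc
  have : 0 < Real.cos θ := Real.cos_pos_of_mem_Ioo
    ⟨by linarith [Real.pi_pos], lt_of_le_of_ne h1 hc⟩
  linarith

lemma pos_of_mul_pos {r c : ℝ} (hr : 0 ≤ r) (h : 0 < r * c) : 0 < r ∧ 0 < c := by
  rcases eq_or_lt_of_le hr with h0 | h0
  · rw [← h0, zero_mul] at h; exact absurd h (lt_irrefl _)
  · exact ⟨h0, (mul_pos_iff_of_pos_left h0).1 h⟩

lemma Quad.FF_eq (Q : Quad x ζ a b e f ρ s t) :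
    FF x ζ a b ρ s t = G x ζ e f '' (Ioo 0 ρ ×ˢ Ioo 0 (Real.pi / 2)) := by
  ext z
  constructor
  · rintro ⟨h1, h2, h3⟩
    obtain ⟨r, θ, hr, hr', hθ, hθ', rfl⟩ := Q.surj h1.le h2.le h3.le
    obtain ⟨-, p1, p2, -, -, p3, -, -⟩ := Q.param (θ := θ) hr hr'
    have q1 := pos_of_mul_pos hr (p2.1 h2)
    have q2 := pos_of_mul_pos hr (p3.1 h3)
    refine ⟨(r, θ), ⟨⟨q1.1, p1.1 h1⟩, ⟨lt_of_le_of_ne hθ ?_, lt_of_le_of_ne hθ' ?_⟩⟩, rfl⟩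
    · rintro rfl; simp at q2
    · rintro rfl; simp at q1
  · rintro ⟨⟨r, θ⟩, ⟨⟨hr, hr'⟩, hθ, hθ'⟩, rfl⟩
    simp only at hr hr' hθ hθ'
    obtain ⟨-, p1, p2, -, -, p3, -, -⟩ := Q.param (θ := θ) hr.le hr'.le
    exact ⟨p1.2 hr', p2.2 (mul_pos hr (Real.cos_pos_of_mem_Ioo ⟨by linarith [Real.pi_pos], hθ'⟩)),
      p3.2 (mul_pos hr (Real.sin_pos_of_pos_of_lt_pi hθ (by linarith [Real.pi_pos])))⟩

lemma Quad.EB_eq (Q : Quad x ζ a b e f ρ s t) :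
    EB x ζ a b ρ s = G x ζ e f '' (Ioo 0 ρ ×ˢ {0}) := by
  ext z
  constructor
  · rintro ⟨h1, h2, h3⟩
    obtain ⟨r, θ, hr, hr', hθ, hθ', rfl⟩ := Q.surj h1.le h2.le (by rw [h3, mul_zero])
    obtain ⟨-, p1, p2, -, -, -, -, p3⟩ := Q.param (θ := θ) hr hr'
    have q1 := pos_of_mul_pos hr (p2.1 h2)
    have q2 := (mul_eq_zero.1 (p3.1 h3)).resolve_left q1.1.ne'
    exact ⟨(r, θ), ⟨⟨q1.1, p1.1 h1⟩, sin_zero_of hθ hθ' q2⟩, rfl⟩
  · rintro ⟨⟨r, θ⟩, ⟨⟨hr, hr'⟩, hθ⟩, rfl⟩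
    simp only [mem_singleton_iff] at hr hr' hθ
    subst hθ
    obtain ⟨-, p1, p2, -, -, -, -, p3⟩ := Q.param (θ := 0) hr.le hr'.le
    exact ⟨p1.2 hr', p2.2 (by simpa using hr), p3.2 (by simp)⟩

lemma Quad.EA_eq (Q : Quad x ζ a b e f ρ s t) :
    EA x ζ a b ρ t = G x ζ e f '' (Ioo 0 ρ ×ˢ {Real.pi / 2}) := by
  ext z
  constructor
  · rintro ⟨h1, h2, h3⟩
    obtain ⟨r, θ, hr, hr', hθ, hθ', rfl⟩ := Q.surj h1.le (by rw [h2, mul_zero]) h3.le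
    obtain ⟨-, p1, -, -, p2, p3, -, -⟩ := Q.param (θ := θ) hr hr'
    have q1 := pos_of_mul_pos hr (p3.1 h3)
    have q2 := (mul_eq_zero.1 (p2.1 h2)).resolve_left q1.1.ne'
    exact ⟨(r, θ), ⟨⟨q1.1, p1.1 h1⟩, cos_zero_of hθ hθ' q2⟩, rfl⟩
  · rintro ⟨⟨r, θ⟩, ⟨⟨hr, hr'⟩, hθ⟩, rfl⟩
    simp only [mem_singleton_iff] at hr hr' hθ
    subst hθ
    obtain ⟨-, p1, -, -, p2, p3, -, -⟩ := Q.param (θ := Real.pi / 2) hr.le hr'.le
    exact ⟨p1.2 hr', p2.2 (by simp), p3.2 (by simpa using hr)⟩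

lemma Quad.EK_eq (Q : Quad x ζ a b e f ρ s t) :
    EK x ζ a b ρ s t = G x ζ e f '' ({ρ} ×ˢ Ioo 0 (Real.pi / 2)) := by
  ext z
  constructor
  · rintro ⟨h1, h2, h3⟩
    obtain ⟨r, θ, hr, hr', hθ, hθ', rfl⟩ := Q.surj h1.le h2.le h3.le
    obtain ⟨-, p1, p2, -, -, p3, -, -⟩ := Q.param (θ := θ) hr hr'
    have q1 := pos_of_mul_pos hr (p2.1 h2)
    have q2 := pos_of_mul_pos hr (p3.1 h3)
    have q3 : r = ρ := by
      rcases eq_or_lt_of_le hr' with h | h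
      · exact h
      · exact absurd (p1.2 h) (by rw [h1]; exact lt_irrefl _)
    refine ⟨(r, θ), ⟨q3, ⟨lt_of_le_of_ne hθ ?_, lt_of_le_of_ne hθ' ?_⟩⟩, rfl⟩
    · rintro rfl; simp at q2
    · rintro rfl; simp at q1
  · rintro ⟨⟨r, θ⟩, ⟨hr, hθ, hθ'⟩, rfl⟩
    simp only [mem_singleton_iff] at hr hθ hθ'
    subst hr
    obtain ⟨p0, p1, p2, -, -, p3, -, -⟩ := Q.param (θ := θ) Q.hρ.le le_rfl
    exact ⟨le_antisymm p0 (not_lt.1 fun h => lt_irrefl _ (p1.1 h)),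
      p2.2 (mul_pos Q.hρ (Real.cos_pos_of_mem_Ioo ⟨by linarith [Real.pi_pos], hθ'⟩)),
      p3.2 (mul_pos Q.hρ (Real.sin_pos_of_pos_of_lt_pi hθ (by linarith [Real.pi_pos])))⟩

lemma G_zero (θ : ℝ) : G x ζ e f (0, θ) = x := by simp [G, psi, cmb]

lemma Quad.FF_closure (Q : Quad x ζ a b e f ρ s t) :
    closure (FF x ζ a b ρ s t) = FFc x ζ a b ρ s t := by
  apply subset_antisymm
  · exact closure_minimal (fun z hz => ⟨hz.1.le, hz.2.1.le, hz.2.2.le⟩) FFc_closed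
  · rintro z ⟨h1, h2, h3⟩
    obtain ⟨r, θ, hr, hr', hθ, hθ', rfl⟩ := Q.surj h1 h2 h3
    rw [Q.FF_eq]
    have hcl := Q.cl (I := Ioo 0 ρ) (J := Ioo 0 (Real.pi / 2)) (by rw [closure_Ioo Q.hρ.ne])
    apply hcl
    rw [closure_Ioo Q.hρ.ne, closure_Ioo (by positivity)]
    exact ⟨(r, θ), ⟨⟨hr, hr'⟩, hθ, hθ'⟩, rfl⟩

lemma Quad.EB_closure (Q : Quad x ζ a b e f ρ s t) :
    closure (EB x ζ a b ρ s) = EBc x ζ a b ρ s := by
  apply subset_antisymm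
  · exact closure_minimal (fun z hz => ⟨hz.1.le, hz.2.1.le, hz.2.2⟩) EBc_closed
  · rintro z ⟨h1, h2, h3⟩
    obtain ⟨r, θ, hr, hr', hθ, hθ', rfl⟩ := Q.surj h1 h2 (by rw [h3, mul_zero])
    obtain ⟨-, -, -, -, -, -, -, p3⟩ := Q.param (θ := θ) hr hr'
    rw [Q.EB_eq]
    have hcl := Q.cl (I := Ioo 0 ρ) (J := {0}) (by rw [closure_Ioo Q.hρ.ne])
    apply hcl
    rw [closure_Ioo Q.hρ.ne, closure_singleton]
    rcases mul_eq_zero.1 (p3.1 h3) with h | h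
    · subst h; exact ⟨(0, 0), ⟨⟨le_rfl, hr'⟩, rfl⟩, by rw [G_zero, G_zero]⟩
    · exact ⟨(r, θ), ⟨⟨hr, hr'⟩, sin_zero_of hθ hθ' h⟩, rfl⟩

lemma Quad.EA_closure (Q : Quad x ζ a b e f ρ s t) :
    closure (EA x ζ a b ρ t) = EAc x ζ a b ρ t := by
  apply subset_antisymm
  · exact closure_minimal (fun z hz => ⟨hz.1.le, hz.2.1, hz.2.2.le⟩) EAc_closed
  · rintro z ⟨h1, h2, h3⟩
    obtain ⟨r, θ, hr, hr', hθ, hθ', rfl⟩ := Q.surj h1 (by rw [h2, mul_zero]) h3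
    obtain ⟨-, -, -, -, p2, -, -, -⟩ := Q.param (θ := θ) hr hr'
    rw [Q.EA_eq]
    have hcl := Q.cl (I := Ioo 0 ρ) (J := {Real.pi / 2}) (by rw [closure_Ioo Q.hρ.ne])
    apply hcl
    rw [closure_Ioo Q.hρ.ne, closure_singleton]
    rcases mul_eq_zero.1 (p2.1 h2) with h | h
    · subst h; exact ⟨(0, Real.pi / 2), ⟨⟨le_rfl, hr'⟩, rfl⟩, by rw [G_zero, G_zero]⟩
    · exact ⟨(r, θ), ⟨⟨hr, hr'⟩, cos_zero_of hθ hθ' h⟩, rfl⟩

lemma Quad.EK_closure (Q : Quad x ζ a b e f ρ s t) :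
    closure (EK x ζ a b ρ s t) = EKc x ζ a b ρ s t := by
  apply subset_antisymm
  · exact closure_minimal (fun z hz => ⟨hz.1, hz.2.1.le, hz.2.2.le⟩) EKc_closed
  · rintro z ⟨h1, h2, h3⟩
    obtain ⟨r, θ, hr, hr', hθ, hθ', rfl⟩ := Q.surj h1.le h2 h3
    obtain ⟨-, p1, -⟩ := Q.param (θ := θ) hr hr'
    rw [Q.EK_eq]
    have hcl := Q.cl (I := {ρ}) (J := Ioo 0 (Real.pi / 2))
      (by rw [closure_singleton]; exact singleton_subset_iff.2 ⟨Q.hρ.le, le_rfl⟩)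
    apply hcl
    rw [closure_singleton, closure_Ioo (by positivity)]
    refine ⟨(r, θ), ⟨?_, hθ, hθ'⟩, rfl⟩
    rcases eq_or_lt_of_le hr' with h | h
    · exact h
    · exact absurd (p1.2 h) (by rw [h1]; exact lt_irrefl _)

lemma Quad.AB (Q : Quad x ζ a b e f ρ s t) : EAc x ζ a b ρ t ∩ EBc x ζ a b ρ s = {x} := by
  ext z
  constructor
  · rintro ⟨⟨h1, h2, h3⟩, -, h4, h5⟩
    obtain ⟨r, θ, hr, hr', hθ, hθ', rfl⟩ := Q.surj h1 h4 h3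
    obtain ⟨-, -, -, -, p2, -, -, p3⟩ := Q.param (θ := θ) hr hr'
    have e1 := p2.1 h2
    have e2 := p3.1 h5
    have e3 : r = 0 := by
      rcases mul_eq_zero.1 e1 with h | h
      · exact h
      · rcases mul_eq_zero.1 e2 with h' | h'
        · exact h'
        · have := Real.sin_sq_add_cos_sq θ
          rw [h, h'] at this; norm_num at this
    subst e3
    rw [G_zero]; rfl
  · rintro rfl
    have e0 : z = G z ζ e f (0, 0) := (G_zero 0).symm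
    obtain ⟨p0, p1, p2, p3, p4, p5, p6, p7⟩ := Q.param (θ := 0) le_rfl Q.hρ.le
    rw [← e0] at p0 p1 p2 p3 p4 p5 p6 p7
    exact ⟨⟨p0, p4.2 (by simp), p6.2 (by simp)⟩, p0, p3.2 (by simp), p7.2 (by simp)⟩

lemma Quad.rho_of (Q : Quad x ζ a b e f ρ s t) {r θ : ℝ} (hr : 0 ≤ r) (hr' : r ≤ ρ)
    (h : dist (G x ζ e f (r, θ)) (kc x ζ ρ) = kr ζ ρ) : r = ρ := by
  obtain ⟨-, p1, -⟩ := Q.param (θ := θ) hr hr'
  rcases eq_or_lt_of_le hr' with h' | h'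
  · exact h'
  · exact absurd (p1.2 h') (by rw [h]; exact lt_irrefl _)

lemma Quad.dist_rho (Q : Quad x ζ a b e f ρ s t) (θ : ℝ) :
    dist (G x ζ e f (ρ, θ)) (kc x ζ ρ) = kr ζ ρ := by
  obtain ⟨p0, p1, -⟩ := Q.param (θ := θ) Q.hρ.le le_rfl
  exact le_antisymm p0 (not_lt.1 fun h => lt_irrefl _ (p1.1 h))

lemma Quad.BK (Q : Quad x ζ a b e f ρ s t) :
    EBc x ζ a b ρ s ∩ EKc x ζ a b ρ s t = {G x ζ e f (ρ, 0)} := by
  ext z
  constructor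
  · rintro ⟨⟨h1, h2, h3⟩, h6, h4, h5⟩
    obtain ⟨r, θ, hr, hr', hθ, hθ', rfl⟩ := Q.surj h1 h4 h5
    obtain ⟨-, p1, -, -, -, -, -, p3⟩ := Q.param (θ := θ) hr hr'
    have e2 := p3.1 h3
    have e3 := Q.rho_of hr hr' h6
    have e4 := sin_zero_of hθ hθ' ((mul_eq_zero.1 e2).resolve_left (by rw [e3]; exact Q.hρ.ne'))
    rw [e3, e4]; rfl
  · rintro rfl
    obtain ⟨p0, p1, p2, p3, p4, p5, p6, p7⟩ := Q.param (θ := 0) Q.hρ.le le_rfl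
    exact ⟨⟨p0, p3.2 (by simpa using Q.hρ.le), p7.2 (by simp)⟩, Q.dist_rho 0,
      p3.2 (by simpa using Q.hρ.le), p6.2 (by simp)⟩

lemma Quad.KA (Q : Quad x ζ a b e f ρ s t) :
    EKc x ζ a b ρ s t ∩ EAc x ζ a b ρ t = {G x ζ e f (ρ, Real.pi / 2)} := by
  ext z
  constructor
  · rintro ⟨⟨h6, h4, h5⟩, h1, h2, h3⟩
    obtain ⟨r, θ, hr, hr', hθ, hθ', rfl⟩ := Q.surj h1 h4 h5
    obtain ⟨-, p1, -, -, p2, -, -, -⟩ := Q.param (θ := θ) hr hr'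
    have e2 := p2.1 h2
    have e3 := Q.rho_of hr hr' h6
    have e4 := cos_zero_of hθ hθ' ((mul_eq_zero.1 e2).resolve_left (by rw [e3]; exact Q.hρ.ne'))
    rw [e3, e4]; rfl
  · rintro rfl
    obtain ⟨p0, p1, p2, p3, p4, p5, p6, p7⟩ := Q.param (θ := Real.pi / 2) Q.hρ.le le_rfl
    exact ⟨⟨Q.dist_rho _, p3.2 (by simp), p6.2 (by simpa using Q.hρ.le)⟩, p0, p4.2 (by simp),
      p6.2 (by simpa using Q.hρ.le)⟩

lemma Quad.frontier (Q : Quad x ζ a b e f ρ s t) :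
    frontier (FF x ζ a b ρ s t) = EAc x ζ a b ρ t ∪ EBc x ζ a b ρ s ∪ EKc x ζ a b ρ s t := by
  rw [_root_.frontier, Q.FF_closure, FF_open.interior_eq]
  ext z
  constructor
  · rintro ⟨⟨h1, h2, h3⟩, h4⟩
    rcases eq_or_lt_of_le h1 with h | h
    · exact Or.inr ⟨h, h2, h3⟩
    rcases eq_or_lt_of_le h2 with h' | h'
    · exact Or.inl (Or.inl ⟨h1, (mul_eq_zero.1 h'.symm).resolve_left Q.hs0, h3⟩)
    rcases eq_or_lt_of_le h3 with h'' | h''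
    · exact Or.inl (Or.inr ⟨h1, h2, (mul_eq_zero.1 h''.symm).resolve_left Q.ht0⟩)
    exact absurd ⟨h, h', h''⟩ h4
  · rintro ((⟨h1, h2, h3⟩ | ⟨h1, h2, h3⟩) | ⟨h1, h2, h3⟩)
    · exact ⟨⟨h1, by rw [h2, mul_zero], h3⟩, fun h => by have := h.2.1; rw [h2, mul_zero] at this; exact lt_irrefl _ this⟩
    · exact ⟨⟨h1, h2, by rw [h3, mul_zero]⟩, fun h => by have := h.2.2; rw [h3, mul_zero] at this; exact lt_irrefl _ this⟩
    · exact ⟨⟨h1.le, h2, h3⟩, fun h => by have := h.1; rw [h1] at this; exact lt_irrefl _ this⟩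

end

end Pool.Agent.K7.H75.OC
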